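import Mathlib
import Pool.Agent.W_MP_97e2c3_nt.Main

set_option autoImplicit false

namespace Pool.Agent.Results.MP_97e2c3_nt.FourNDvd

/-- For all `n > 1` and `r ≥ 0`,
`∑_{k<n} (-1)^k (3k+2) ∑_{j≤k} binom(k,j)^(2r+1)` is divisible by `4n`. -/
theorem result (n r : ℕ) (hn : 1 < n) :
    (4 * (n : ℤ)) ∣ ∑ k ∈ Finset.range n, (-1 : ℤ) ^ k * (3 * (k : ℤ) + 2) *
      ∑ j ∈ Finset.range (k + 1), ((k.choose j : ℕ) : ℤ) ^ (2 * r + 1) :=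
  Pool.Agent.W_MP_97e2c3_nt.main (m := 2 * r + 1) ⟨r, rfl⟩ hn

end Pool.Agent.Results.MP_97e2c3_nt.FourNDvd
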